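import Mathlib

/-!
# Kernel-perfect biorientations and derangement assignments: a counterexample

Take the triangle with every edge doubled. On each pair of vertices one of the two edges is
straight (all pairs of equal colours) and oriented in one direction only, cyclically; the other one
is twisted (the colours `0, 1` and the colours `2, 3` are exchanged) and oriented both ways. All
lists are `{0, 1, 2, 3}`. The biorientation is kernel-perfect, every out-degree is `3`, and there is
no colouring: the classes `{0, 1}` and `{2, 3}` of the colours of the three vertices would be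
pairwise different.
-/

set_option autoImplicit false

namespace Pool.Agent.Results.MP_201e5f_co.DoubledTriangle

/-- A loopless multigraph with vertex set `V` and edge set `E`: the edge `e` joins the two distinct
vertices `a e` and `b e`. -/
structure MGraph (V E : Type) where
  /-- one end of the edge -/
  a : E → V
  /-- the other end of the edge -/
  b : E → V
  ne : ∀ e, a e ≠ b e

variable {V E : Type}

/-- A biorientation: for each edge `e`, the arc from `a e` to `b e` is present if `fwd e`, and the arc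
from `b e` to `a e` is present if `bwd e`; at least one of them is present. -/
structure Biorientation (G : MGraph V E) where
  /-- the arc `(a e, b e)` is present -/
  fwd : E → Prop
  /-- the arc `(b e, a e)` is present -/
  bwd : E → Prop
  or : ∀ e, fwd e ∨ bwd e

/-- There is an arc from `u` to `v`. -/
def Biorientation.Arc {G : MGraph V E} (D : Biorientation G) (u v : V) : Prop :=
  ∃ e, (D.fwd e ∧ G.a e = u ∧ G.b e = v) ∨ (D.bwd e ∧ G.b e = u ∧ G.a e = v)

/-- The out-degree of `v`, arcs counted with multiplicity. -/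
noncomputable def Biorientation.outDeg {G : MGraph V E} (D : Biorientation G) (v : V) : ℕ :=
  Nat.card {e : E // D.fwd e ∧ G.a e = v} + Nat.card {e : E // D.bwd e ∧ G.b e = v}

/-- `U` is a kernel of the subdigraph induced by `W`. -/
def Biorientation.IsKernel {G : MGraph V E} (D : Biorientation G) (W U : Set V) : Prop :=
  U ⊆ W ∧ (∀ u ∈ U, ∀ v ∈ U, ¬ D.Arc u v) ∧ ∀ v ∈ W, v ∉ U → ∃ u ∈ U, D.Arc v u

/-- Every induced subdigraph has a kernel. -/
def Biorientation.KernelPerfect {G : MGraph V E} (D : Biorientation G) : Prop :=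
  ∀ W : Set V, ∃ U : Set V, D.IsKernel W U

/-- A correspondence assignment: finite lists `L v` of colours and, for each edge `e`, a partial
matching `C e` between `L (a e)` and `L (b e)`. -/
structure Assignment (G : MGraph V E) where
  /-- the lists -/
  L : V → Finset ℕ
  /-- the partial matchings -/
  C : E → Set (ℕ × ℕ)
  mem : ∀ e, ∀ p ∈ C e, p.1 ∈ L (G.a e) ∧ p.2 ∈ L (G.b e)
  inj_left : ∀ e, ∀ p ∈ C e, ∀ q ∈ C e, p.1 = q.1 → p.2 = q.2
  inj_right : ∀ e, ∀ p ∈ C e, ∀ q ∈ C e, p.2 = q.2 → p.1 = q.1

/-- The edge `e` is straight: all pairs of `C e` consist of equal colours. -/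
def Assignment.Straight {G : MGraph V E} (A : Assignment G) (e : E) : Prop :=
  ∀ p ∈ A.C e, p.1 = p.2

/-- A derangement assignment: for every edge which is not straight (that is, for every twisted
edge) no pair of `C e` consists of equal colours. -/
def Assignment.Derangement {G : MGraph V E} (A : Assignment G) : Prop :=
  ∀ e, ¬ A.Straight e → ∀ p ∈ A.C e, p.1 ≠ p.2

/-- There is an `(L, C)`-colouring. -/
def Assignment.Colourable {G : MGraph V E} (A : Assignment G) : Prop :=
  ∃ φ : V → ℕ, (∀ v, φ v ∈ A.L v) ∧ ∀ e, (φ (G.a e), φ (G.b e)) ∉ A.C e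

/-- The statement of Q1. -/
def Q1 : Prop :=
  ∀ (V E : Type) [Finite V] [Finite E] (G : MGraph V E) (D : Biorientation G) (A : Assignment G),
    D.KernelPerfect → A.Derangement → (∀ e, ¬ A.Straight e → D.fwd e ∧ D.bwd e) →
    (∀ v, D.outDeg v + 1 ≤ (A.L v).card) → A.Colourable

/-! ## The counterexample -/

/-- The doubled triangle: the edges `(i, s)` for `s : Bool` join `i` and `i + 1`. -/
def G : MGraph (ZMod 3) (ZMod 3 × Bool) where
  a e := e.1
  b e := e.1 + 1
  ne := by decide

/-- The edges `(i, false)` are oriented from `i` to `i + 1`, the edges `(i, true)` both ways. -/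
def D : Biorientation G where
  fwd _ := True
  bwd e := e.2 = true
  or _ := Or.inl trivial

/-- the exchange of `0, 1` and of `2, 3` -/
def sw (c : ℕ) : ℕ := if c = 0 then 1 else if c = 1 then 0 else if c = 2 then 3 else 2

/-- The edges `(i, false)` are straight, the edges `(i, true)` are twisted. -/
def A : Assignment G where
  L _ := Finset.range 4
  C e := {p | p.1 < 4 ∧ p.2 < 4 ∧ p.2 = if e.2 = true then sw p.1 else p.1}
  mem := by
    rintro e ⟨c, d⟩ ⟨h1, h2, -⟩
    exact ⟨Finset.mem_range.2 h1, Finset.mem_range.2 h2⟩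
  inj_left := by
    rintro e ⟨c, d⟩ ⟨h1, h2, h3⟩ ⟨c', d'⟩ ⟨h1', h2', h3'⟩ h
    simp only at h h3 h3' ⊢
    rw [h3, h3', h]
  inj_right := by
    rintro e ⟨c, d⟩ ⟨h1, h2, h3⟩ ⟨c', d'⟩ ⟨h1', h2', h3'⟩ h
    simp only at h h1 h1' h3 h3' ⊢
    rw [h3, h3'] at h
    split_ifs at h with hs
    · interval_cases c <;> interval_cases c' <;> simp_all [sw]
    · exact h

lemma straight_false (i : ZMod 3) : A.Straight (i, false) := by
  rintro ⟨c, d⟩ ⟨-, -, h⟩
  simpa using h.symm

lemma arc_all (u v : ZMod 3) (h : u ≠ v) : D.Arc u v := by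
  have : v = u + 1 ∨ u = v + 1 := by revert u v; decide
  rcases this with rfl | rfl
  · exact ⟨(u, true), Or.inl ⟨trivial, rfl, rfl⟩⟩
  · exact ⟨(v, true), Or.inr ⟨rfl, rfl, rfl⟩⟩

lemma arc_irrefl (u : ZMod 3) : ¬ D.Arc u u := by
  rintro ⟨e, ⟨-, h1, h2⟩ | ⟨-, h1, h2⟩⟩
  · exact G.ne e (h1.trans h2.symm)
  · exact G.ne e (h2.trans h1.symm)

lemma kernelPerfect : D.KernelPerfect := by
  intro W
  rcases W.eq_empty_or_nonempty with rfl | ⟨w, hw⟩
  · exact ⟨∅, le_rfl, fun u hu => absurd hu (Set.notMem_empty u),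
      fun v hv => absurd hv (Set.notMem_empty v)⟩
  · refine ⟨{w}, Set.singleton_subset_iff.2 hw, ?_, ?_⟩
    · rintro u rfl v rfl
      exact arc_irrefl _
    · intro v _ hv
      exact ⟨w, rfl, arc_all v w hv⟩

lemma outDeg_eq (v : ZMod 3) : D.outDeg v = 3 := by
  classical
  unfold Biorientation.outDeg
  have h1 : Nat.card {e : ZMod 3 × Bool // D.fwd e ∧ G.a e = v} = 2 := by
    rw [Nat.subtype_card (Finset.univ.filter fun e : ZMod 3 × Bool => e.1 = v)
      (fun e => by simp [D, G])]
    revert v
    decide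
  have h2 : Nat.card {e : ZMod 3 × Bool // D.bwd e ∧ G.b e = v} = 1 := by
    rw [Nat.subtype_card (Finset.univ.filter fun e : ZMod 3 × Bool => e.2 = true ∧ e.1 + 1 = v)
      (fun e => by simp [D, G])]
    clear h1
    revert v
    decide
  rw [h1, h2]

/-- **Q1 is false.** -/
theorem result : ¬ Q1 := by
  intro h
  have hst : ∀ e : ZMod 3 × Bool, ¬ A.Straight e → e.2 = true := by
    rintro ⟨i, s⟩ hs
    cases s
    · exact absurd (straight_false i) hs
    · rfl
  obtain ⟨φ, h1, h2⟩ := h (ZMod 3) (ZMod 3 × Bool) G D A kernelPerfect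
    (by
      rintro e he ⟨c, d⟩ ⟨hc, hd, hcd⟩
      simp only [hst e he, if_true] at hcd hc ⊢
      rw [hcd]
      interval_cases c <;> simp [sw])
    (fun e he => ⟨trivial, hst e he⟩)
    (fun v => by rw [outDeg_eq]; simp [A])
  have hr : ∀ v, φ v < 4 := fun v => Finset.mem_range.1 (h1 v)
  have hne : ∀ i, φ (i + 1) ≠ φ i := fun i hi => h2 (i, false) ⟨hr _, hr _, by simpa [G] using hi⟩
  have hne2 : ∀ i, φ (i + 1) ≠ sw (φ i) := fun i hi =>
    h2 (i, true) ⟨hr _, hr _, by simpa [G] using hi⟩
  have e0 := hne 0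
  have e1 := hne 1
  have e2 := hne 2
  have f0 := hne2 0
  have f1 := hne2 1
  have f2 := hne2 2
  have z1 : (0 : ZMod 3) + 1 = 1 := by decide
  have z2 : (1 : ZMod 3) + 1 = 2 := by decide
  have z3 : (2 : ZMod 3) + 1 = 0 := by decide
  rw [z1] at e0 f0
  rw [z2] at e1 f1
  rw [z3] at e2 f2
  have r0 := hr 0
  have r1 := hr 1
  have r2 := hr 2
  generalize φ 0 = x at *
  generalize φ 1 = y at *
  generalize φ 2 = z at *
  interval_cases x <;> interval_cases y <;> interval_cases z <;> simp_all [sw]

end Pool.Agent.Results.MP_201e5f_co.DoubledTriangle
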